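import Pool.Agent.Helper14.PG.Key

/-!
# PI-Key: the arithmetic input without a condition modulo `4`
-/

set_option autoImplicit false

namespace Pool.Agent.Helper14.PI

open WeierstrassCurve Finset Pool.Agent.Helper10.SS Pool.Agent.Helper6.CI Pool.Agent.Helper11.Cov
open Pool.Agent.Helper14.PG

/-- The three cases of the final statement. -/
theorem ssMod_of8 {c : ℕ} {a b : ℤ} (hab : 4 * a ^ 3 + 27 * b ^ 2 ≠ 0)
    (h : (a = 0 ∧ 3 ∣ c) ∨ (b = 0 ∧ 4 ∣ c) ∨ SsMod c a b) : SsMod c a b := by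
  rcases h with ⟨h1, h3⟩ | ⟨h1, h4⟩ | h1
  · rw [h1] at hab ⊢
    exact ssMod_b h3 _ (fun h2 => hab (by rw [h2]; norm_num))
  · rw [h1] at hab ⊢
    exact ssMod_a h4 _ (fun h2 => hab (by rw [h2]; norm_num))
  · exact h1

theorem exists_class8 {c m : ℕ} (hc : 0 < c) (hmc : m.gcd c ∣ 2) :
    ∃ c₀ : ℕ, Nat.Coprime c₀ (c * m) ∧ ∀ r : ℕ, 1 ≤ r → r ≡ c₀ [MOD c * m] →
      c ∣ r + 1 ∧ m ∣ r - 1 := by
  have h2 : c - 1 ≡ 1 [MOD c.gcd m] := by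
    rw [Nat.gcd_comm]
    rcases (Nat.dvd_prime Nat.prime_two).mp hmc with h1 | h1
    · rw [h1]
      unfold Nat.ModEq
      omega
    · have h2 : 2 ∣ c := by
        rw [← h1]
        exact Nat.gcd_dvd_right m c
      rw [h1]
      unfold Nat.ModEq
      omega
  obtain ⟨c₀, h5, h6⟩ := Nat.chineseRemainder' h2
  have h7 : Nat.Coprime c₀ c := by
    unfold Nat.Coprime
    rw [h5.gcd_eq]
    exact (Nat.coprime_self_sub_left hc).mpr (Nat.coprime_one_left c)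
  have h8 : Nat.Coprime c₀ m := by
    unfold Nat.Coprime
    rw [h6.gcd_eq]
    exact Nat.gcd_one_left m
  refine ⟨c₀, Nat.Coprime.mul_right h7 h8, fun r hr hrc => ⟨?_, ?_⟩⟩
  · have h9 : r ≡ c - 1 [MOD c] := (hrc.of_dvd (Dvd.intro _ rfl)).trans h5
    have h10 : r + 1 ≡ c - 1 + 1 [MOD c] := h9.add_right 1
    rw [Nat.sub_add_cancel hc] at h10
    exact Nat.modEq_zero_iff_dvd.mp (h10.trans (by simp [Nat.ModEq]))
  · have h9 : r ≡ 1 [MOD m] := (hrc.of_dvd (Dvd.intro_left _ rfl)).trans h6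
    exact (Nat.modEq_iff_dvd' hr).mp h9.symm

/-- Finite generation together with very many primes `r = 1 mod m` killing the groups. -/
def Key8 (m : ℕ) {n : ℕ} (a b : Fin n → ℤ) : Prop :=
  (∀ i, ∃ g : ℕ, ∃ G : Fin g → (E (a i) (b i)).Point, ∀ P, ∃ k : Fin g → ℤ, P = ∑ j, k j • G j) ∧
  ∀ τ : ℝ, 0 < τ → ∃ x₀ : ℕ, ∀ x : ℕ, x₀ ≤ x → ∃ M : ℕ, 0 < M ∧ ∃ R : Finset ℕ,
    (∀ r ∈ R, r ≤ x ∧ m ∣ r - 1 ∧ ∃ _ : Fact r.Prime, ∀ i,
      ∀ P : (E (a i) (b i)).Point, InH r (M • P)) ∧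
    (x : ℝ) ^ (1 - τ) ≤ #R ∧ Real.log M ≤ (x : ℝ) ^ (1 - 1 / 82 : ℝ)

theorem key8_ss {n : ℕ} (a b : Fin n → ℤ) (hg : ∀ i, Good (a i) (b i)) {c m : ℕ} (hc : 0 < c)
    (hm : 0 < m) (hmc : m.gcd c ∣ 2) (hab : ∀ i, SsMod c (a i) (b i)) :
    Key8 m a b := by
  classical
  refine ⟨(key_ss a b hg fun i => ?_).1, fun τ hτ => ?_⟩
  · obtain ⟨B, hB⟩ := hab i
    exact ⟨c, B, hc, hB⟩
  choose B hB using hab
  obtain ⟨c₀, hco, hcl⟩ := exists_class8 hc hmc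
  set B' : ℕ := 3 + ∑ i, (B i + (4 * a i ^ 3 + 27 * b i ^ 2).natAbs) with hB'
  obtain ⟨x₁, hx₁⟩ := many_primes2 (Nat.mul_pos hc hm) hco B' τ hτ
  obtain ⟨x₂, hx₂⟩ := Pool.Agent.Helper14.PS.exists_modulus
  refine ⟨max x₁ x₂, fun x hx => ?_⟩
  obtain ⟨M, hM, hMl, hMd⟩ := hx₂ x ((le_max_right _ _).trans hx)
  refine ⟨M, hM, Rset2 (c * m) c₀ B' x, fun r hr => ?_, hx₁ x ((le_max_left _ _).trans hx), hMl⟩
  rw [Rset2, Finset.mem_filter, Finset.mem_Icc] at hr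
  obtain ⟨⟨hr1, hrx⟩, hp, hrc, hrB, q, hq, hq1, hq2, hq3⟩ := hr
  obtain ⟨h1, h1m⟩ := hcl r hr1 hrc
  have hrM : r + 1 ∣ M := hMd r q hrx hq hq1 hq2 hq3
  have hF : Fact r.Prime := ⟨hp⟩
  refine ⟨hrx, h1m, hF, fun i P => ?_⟩
  have hle : B i + (4 * a i ^ 3 + 27 * b i ^ 2).natAbs ≤
      ∑ i, (B i + (4 * a i ^ 3 + 27 * b i ^ 2).natAbs) :=
    Finset.single_le_sum (f := fun i => B i + (4 * a i ^ 3 + 27 * b i ^ 2).natAbs)
      (fun _ _ => Nat.zero_le _) (Finset.mem_univ i)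
  have hgood : GoodAt (a i) (b i) r := by
    refine ⟨by omega, fun hd => ?_⟩
    have h1 := Int.natCast_dvd.mp hd
    have h2 := Nat.le_of_dvd (Int.natAbs_pos.mpr (hg i)) h1
    omega
  have h3 := hB i r hp (by omega) h1
  obtain ⟨c', hc'⟩ := hrM
  have key : InH r ((r + 1) • P) := kill_of_card hgood
    (by rw [card_reduced (a i) (b i) hgood, h3]) P
  have := key.nsmul c'
  rwa [smul_smul, mul_comm, ← hc'] at this

end Pool.Agent.Helper14.PI
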