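import Pool.Agent.Helper14.PS.Classes3
import Pool.Agent.Helper14.PI.Key

/-!
# PI-Classes: the general counting theorem, with primes `r = 1` modulo `m'` only, no condition modulo `4`
-/

set_option autoImplicit false

namespace Pool.Agent.Helper14.PI

open WeierstrassCurve Finset Pool.Agent.Helper11.Cov Pool.Agent.Helper14.PS

/-- Leaving out the primes below `r₀` and those dividing `b`. -/
theorem key8_nd {n : ℕ} {a b : Fin n → ℤ} {m' : ℕ} (hK : Key8 m' a b) (r₀ : ℕ) :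
    ∃ x₀ : ℕ, ∀ x : ℕ, x₀ ≤ x → ∃ M : ℕ, 0 < M ∧
    Real.log M ≤ (x : ℝ) ^ (1 - 1 / 82 : ℝ) ∧ ∀ N c : ℕ, 1 ≤ c → c ≤ N →
      Real.log N ≤ (x : ℝ) ^ (1 - 1 / 250 : ℝ) → ∃ R : Finset ℕ,
    (∀ r ∈ R, r₀ ≤ r ∧ ¬ r ∣ c ∧ r ≤ x ∧ m' ∣ r - 1 ∧ ∃ _ : Fact r.Prime, ∀ i,
      ∀ P : (E (a i) (b i)).Point, InH r (M • P)) ∧
    (x : ℝ) ^ (1 - 1 / 1000 : ℝ) ≤ #R := by
  classical
  obtain ⟨x₁, hx₁⟩ := hK.2 (1 / 2000) (by norm_num)
  have ht : Filter.Tendsto (fun x : ℕ => (x : ℝ) ^ (1 / 2000 : ℝ)) Filter.atTop Filter.atTop :=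
    (tendsto_rpow_atTop (by norm_num)).comp tendsto_natCast_atTop_atTop
  obtain ⟨x₂, hx₂⟩ := Filter.eventually_atTop.mp (ht.eventually_ge_atTop ((r₀ : ℝ) + 3))
  refine ⟨max (max x₁ x₂) 1, fun x hx => ?_⟩
  have h1 : x₁ ≤ x := (le_max_left _ _).trans ((le_max_left _ _).trans hx)
  have h2 : x₂ ≤ x := (le_max_right _ _).trans ((le_max_left _ _).trans hx)
  have h3 : (1 : ℝ) ≤ x := by exact_mod_cast (le_max_right _ _).trans hx
  obtain ⟨M, hM, R, hR, hcard, hlog⟩ := hx₁ x h1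
  refine ⟨M, hM, hlog, fun N c hc hcN hNx =>
    ⟨(R.filter fun r => r₀ ≤ r).filter fun r => ¬ r ∣ c, fun r hr => ?_, ?_⟩⟩
  · rw [mem_filter, mem_filter] at hr
    obtain ⟨h4, h5, h6⟩ := hR r hr.1.1
    exact ⟨hr.1.2, hr.2, h4, h5, h6⟩
  · have h4 : R.card ≤ (R.filter fun r => r₀ ≤ r).card + r₀ := by
      rw [← card_filter_add_card_filter_not (s := R) (fun r => r₀ ≤ r)]
      gcongr
      calc (R.filter fun r => ¬ r₀ ≤ r).card ≤ (range r₀).card := by
            apply card_le_card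
            intro r hr
            rw [mem_filter, not_le] at hr
            exact mem_range.mpr hr.2
        _ = r₀ := card_range _
    have h4' : (R.card : ℝ) ≤ ((R.filter fun r => r₀ ≤ r).card : ℝ) + r₀ := by exact_mod_cast h4
    have h9 := card_filter_add_card_filter_not (s := R.filter fun r => r₀ ≤ r) (fun r => r ∣ c)
    have h9' : ((#((R.filter fun r => r₀ ≤ r).filter fun r => r ∣ c) : ℕ) : ℝ) +
        #((R.filter fun r => r₀ ≤ r).filter fun r => ¬ r ∣ c) = #(R.filter fun r => r₀ ≤ r) := by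
      exact_mod_cast h9
    have h10 := card_dvd_le hc hcN (R.filter fun r => r₀ ≤ r) (fun r hr => by
      obtain ⟨-, -, hf, -⟩ := hR r (mem_filter.1 hr).1
      exact hf.out)
    have h5 : (x : ℝ) ^ (1 - 1 / 2000 : ℝ) =
        (x : ℝ) ^ (1 - 1 / 1000 : ℝ) * (x : ℝ) ^ (1 / 2000 : ℝ) := by
      rw [← Real.rpow_add (by linarith)]
      norm_num
    have h6 : (1 : ℝ) ≤ (x : ℝ) ^ (1 - 1 / 1000 : ℝ) := Real.one_le_rpow h3 (by norm_num)
    have h11 : (x : ℝ) ^ (1 - 1 / 250 : ℝ) ≤ (x : ℝ) ^ (1 - 1 / 1000 : ℝ) :=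
      Real.rpow_le_rpow_of_exponent_le h3 (by norm_num)
    have h7 := hx₂ x h2
    rw [h5] at hcard
    have h8 : (0 : ℝ) ≤ r₀ := Nat.cast_nonneg _
    nlinarith

/-- `family_bound` with conditions at the primes `r ≥ r₀` that do not divide `d`, uniformly in `d ≤ N`. -/
theorem family_bound8 {n : ℕ} {a b : Fin n → ℤ} {m' : ℕ} (hK : Key8 m' a b) {k : ℕ} (hk : 1 ≤ k) {θ : ℝ}
    (hθ0 : 0 ≤ θ) (hθ1 : θ < 1) (r₀ : ℕ) : ∃ N₀ : ℕ, ∀ N : ℕ, N₀ ≤ N →
      ∀ d : ℕ, 1 ≤ d → d ≤ N → ∀ (On : (Fin k → ℤ) → (∀ i, (E (a i) (b i)).Point) → Prop)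
        (Bd : (∀ i, (E (a i) (b i)).Point) → ∀ r : ℕ, Finset (Fin k → ZMod r)),
        (∀ P (r : ℕ), r.Prime → r₀ ≤ r → ¬ r ∣ d → m' ∣ r - 1 → (#(Bd P r) : ℝ) ≤ θ * (r : ℝ) ^ k) →
        (∀ t P (r : ℕ), r.Prime → r₀ ≤ r → ¬ r ∣ d → m' ∣ r - 1 → On t P → (fun i => (t i : ZMod r)) ∈ Bd P r) →
        (∀ P P' (r : ℕ) [Fact r.Prime], r₀ ≤ r → ¬ r ∣ d → m' ∣ r - 1 → (∀ i, InH r (P' i - P i)) → Bd P r = Bd P' r) →
        ∀ [DecidablePred fun t : Fin k → ℤ => ∃ P, On t P],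
          (#{t ∈ Bx k N | ∃ P, On t P} : ℝ) ≤ (N : ℝ) ^ ((k : ℝ) - 1 / 2000) := by
  classical
  have hprimes := key8_nd hK r₀
  obtain ⟨hgen, -⟩ := hK
  choose g G hG using hgen
  set gg : ℕ := ∑ i, g i with hgg
  set c : ℝ := 1 - θ with hc
  have hc0 : 0 < c := by rw [hc]; linarith
  have hc1 : c ≤ 1 := by rw [hc]; linarith
  obtain ⟨x₀, hx₀⟩ := hprimes
  obtain ⟨N₀, hN₀⟩ := numerics2 gg k c hc0 hc1 x₀
  refine ⟨max N₀ 1, fun N hN d hd hdN On Bd hB1 hB2 hB3 _ => ?_⟩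
  have hN1 : 1 ≤ N := le_trans (le_max_right _ _) hN
  have hNpos : (0 : ℝ) < N := by exact_mod_cast hN1
  obtain ⟨x, s, hx, hNx, hnum⟩ := hN₀ N (le_trans (le_max_left _ _) hN)
  obtain ⟨M, hM, hlogM, hR'⟩ := hx₀ x hx
  obtain ⟨R, hR, hcard⟩ := hR' N d hd hdN hNx
  obtain ⟨hs, hfin⟩ := hnum M (#R) hM hlogM hcard
  have : NeZero M := ⟨hM.ne'⟩
  -- the class of a point
  let κ := ∀ i : Fin n, Fin (g i) → ZMod M
  have hκ : Fintype.card κ = M ^ gg := by
    rw [Fintype.card_pi]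
    simp only [Fintype.card_pi, ZMod.card, Finset.prod_const, Finset.card_univ, Fintype.card_fin]
    rw [hgg, Finset.prod_pow_eq_pow_sum]
  choose kk hkk using hG
  let cls : (∀ i, (E (a i) (b i)).Point) → κ := fun P i j => (kk i (P i) j : ZMod M)
  have hcls : ∀ P P', cls P = cls P' → ∀ r ∈ R, ∀ i, InH r (P' i - P i) := by
    intro P P' h r hr i
    have h1 : ∀ j, (M : ℤ) ∣ kk i (P' i) j - kk i (P i) j := by
      intro j
      have := congrFun (congrFun h i) j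
      rw [← ZMod.intCast_zmod_eq_zero_iff_dvd]
      push_cast
      exact sub_eq_zero.mpr this.symm
    choose q hq using h1
    have h2 : P' i - P i = M • (∑ j, q j • G i j) := by
      rw [hkk i (P' i), hkk i (P i), ← Finset.sum_sub_distrib, Finset.smul_sum]
      refine Finset.sum_congr rfl fun j _ => ?_
      rw [← sub_smul, hq j, mul_smul, natCast_zsmul]
    rw [h2]
    obtain ⟨-, -, -, -, -, h3⟩ := hR r hr
    exact h3 i _
  set bnd : ℝ := (c ^ (2 * s))⁻¹ * ((((#R).choose s : ℕ) : ℝ)⁻¹ + k * (x : ℝ) ^ (2 * s) / N) with hbnd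
  have hchoose : (0 : ℝ) < (((#R).choose s : ℕ) : ℝ) := by
    exact_mod_cast Nat.choose_pos hs
  have hbnd0 : 0 ≤ bnd := by rw [hbnd]; positivity
  -- one class
  let T : κ → Finset (Fin k → ℤ) := fun q => {t ∈ Bx k N | ∃ P, cls P = q ∧ On t P}
  have hT : ∀ q : κ, (#(T q) : ℝ) ≤ bnd * (N : ℝ) ^ k := by
    intro q
    by_cases hex : ∃ P, cls P = q
    · obtain ⟨P, hP⟩ := hex
      have hsieve := es_bound (k := k) R (fun r hr => by
          obtain ⟨-, -, -, -, hf, -⟩ := hR r hr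
          exact hf.out) (fun r => osc (Bd P r)) (fun r hr => by
          obtain ⟨-, -, -, -, hf, -⟩ := hR r hr
          exact osc_Osc hf.out.pos _) c hc0 (T q) N (Finset.filter_subset _ _) (by
          intro t ht r hr
          obtain ⟨-, P', hP', hOn⟩ := Finset.mem_filter.mp ht
          obtain ⟨h0, hnd, -, h4, hf, -⟩ := hR r hr
          have e1 := hB2 t P' r hf.out h0 hnd h4 hOn
          have e2 : Bd P r = Bd P' r := by
            have := hf
            exact hB3 P P' r h0 hnd h4 (hcls P P' (hP.trans hP'.symm) r hr)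
          rw [← e2] at e1
          have e3 := hB1 P r hf.out h0 hnd h4
          have hrp : (0 : ℝ) < (r : ℝ) ^ k := by
            have : (0 : ℝ) < r := by exact_mod_cast hf.out.pos
            positivity
          have e4 : (#(Bd P r) : ℝ) / (r : ℝ) ^ k ≤ θ := by
            rw [div_le_iff₀ hrp]
            exact e3
          show c ≤ osc (Bd P r) t
          unfold osc
          rw [if_pos e1, hc]
          linarith) x s (fun r hr => (hR r hr).2.2.1)
      set ch : ℝ := (((#R).choose s : ℕ) : ℝ) with hch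
      have hpp : (N : ℝ) ^ (k - 1) = (N : ℝ) ^ k / N := by
        rw [eq_div_iff hNpos.ne', ← pow_succ]
        congr 1
        omega
      rw [hpp] at hsieve
      have hcs : 0 < c ^ (2 * s) := by positivity
      have e5 : (c ^ s * ch) ^ 2 = c ^ (2 * s) * ch ^ 2 := by
        rw [mul_pow, ← pow_mul, mul_comm s 2]
      rw [e5] at hsieve
      have e6 : bnd * (N : ℝ) ^ k * (c ^ (2 * s) * ch ^ 2) =
          ch * (N : ℝ) ^ k + ch ^ 2 * (k * (x : ℝ) ^ (2 * s) * ((N : ℝ) ^ k / N)) := by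
        rw [hbnd]
        field_simp
      rw [← e6] at hsieve
      exact le_of_mul_le_mul_right hsieve (by positivity)
    · have : T q = ∅ := by
        rw [Finset.filter_eq_empty_iff]
        rintro t - ⟨P, hP, -⟩
        exact hex ⟨P, hP⟩
      rw [this]
      simp only [Finset.card_empty, Nat.cast_zero]
      positivity
  have hsub : ({t ∈ Bx k N | ∃ P, On t P} : Finset (Fin k → ℤ)) ⊆
      (Finset.univ : Finset κ).biUnion T := by
    intro t ht
    obtain ⟨h1, P, hP⟩ := Finset.mem_filter.mp ht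
    rw [Finset.mem_biUnion]
    exact ⟨cls P, Finset.mem_univ _, Finset.mem_filter.mpr ⟨h1, P, rfl, hP⟩⟩
  have hle : (#{t ∈ Bx k N | ∃ P, On t P} : ℝ) ≤ ∑ q : κ, (#(T q) : ℝ) := by
    have h1 := (Finset.card_le_card hsub).trans Finset.card_biUnion_le
    exact_mod_cast h1
  calc (#{t ∈ Bx k N | ∃ P, On t P} : ℝ) ≤ ∑ q : κ, (#(T q) : ℝ) := hle
    _ ≤ ∑ _q : κ, bnd * (N : ℝ) ^ k := Finset.sum_le_sum fun q _ => hT q
    _ = ((M : ℝ) ^ gg * bnd) * (N : ℝ) ^ k := by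
        rw [Finset.sum_const, Finset.card_univ, hκ, nsmul_eq_mul]
        push_cast
        ring
    _ ≤ (N : ℝ) ^ (-(1 / 2000) : ℝ) * (N : ℝ) ^ k := by
        apply mul_le_mul_of_nonneg_right hfin (by positivity)
    _ = (N : ℝ) ^ ((k : ℝ) - 1 / 2000) := by
        rw [← Real.rpow_natCast (N : ℝ) k, ← Real.rpow_add hNpos]
        congr 1
        ring

end Pool.Agent.Helper14.PI
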