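import Pool.Agent.Helper14.PI.Classes
import Pool.Agent.Helper14.PH.Covers

/-!
# PI-Covers: complete linear systems, rational coefficients, with primes `r = 1` modulo `m`
-/

set_option autoImplicit false

namespace Pool.Agent.Helper14.PI

open WeierstrassCurve Finset Pool.Agent.Helper11.Cov Pool.Agent.Helper14.PS Pool.Agent.Helper14.PH

variable {n : ℕ} {a b : Fin n → ℤ} {m : ℕ} {d : Fin n → ℕ} {S : Finset (ℕ × (Fin n → ℕ × ℕ))}

/-- **Power saving for complete linear systems**, in every box of side `N ≥ N₀`, rational coefficients. -/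
theorem covers_power8 {m' : ℕ} (hK : Key8 m' a b) (hm : 2 ≤ m) (hS : Adm1 m d S)
    (hSm : Adm2 m d S) (h' : (2 < m → Adm2 (m - 1) d S) ∨ m' = m) : ∃ N₀ : ℕ, ∀ N : ℕ, N₀ ≤ N →
    ∀ q : ℕ, 1 ≤ q → q ≤ N →
    ∀ v : S → ℤ, (Nat.card {u : S → ℤ // (∃ P z, OnCoverQ a b m d S (fun s => (u s : ℚ) / q) P z) ∧
      ∀ s, v s ≤ u s ∧ u s < v s + N} : ℝ) ≤ (N : ℝ) ^ ((#S : ℝ) - 1 / 2000) := by
  classical
  have hm' : (2:ℝ) ≤ m := by exact_mod_cast hm
  obtain ⟨s₀, hs₀, -⟩ := hSm ∅
  have hk : 1 ≤ Fintype.card S := by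
    rw [Fintype.card_coe]
    exact Finset.card_pos.mpr ⟨s₀, hs₀⟩
  have hθ : (0:ℝ) < 1 / (4 * m) ∧ 1 / (4 * (m:ℝ)) < 1 :=
    ⟨by positivity, by rw [div_lt_one (by positivity)]; linarith⟩
  obtain ⟨N₀, hN₀⟩ := family_bound8 hK hk (θ := 1 - 1 / (4 * m)) (by linarith [hθ.2])
    (by linarith [hθ.1]) 3
  refine ⟨N₀, fun N hN q hq hqN v => ?_⟩
  choose Ac Bc Dc hrep using fun (i : Fin n) (Q : (E (a i) (b i)).Point) => exists_irep Q
  let e : S ≃ Fin (Fintype.card S) := Fintype.equivFin S
  let vP : (∀ i, (E (a i) (b i)).Point) → ∀ l : ℕ, S → ZMod l := fun P l =>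
    vec d S (fun i => (Ac i (P i) : ZMod l)) (fun i => (Bc i (P i) : ZMod l))
      (fun i => (Dc i (P i) : ZMod l))
  let Bd : (∀ i, (E (a i) (b i)).Point) → ∀ r : ℕ, Finset (Fin (Fintype.card S) → ZMod r) :=
    fun P r => if hr : r.Prime then
      haveI : Fact r.Prime := ⟨hr⟩
      Finset.univ.filter (fun t => (fun s : S => (q : ZMod r) ^ (s.1.1 - 1) *
        (((v s : ℤ) : ZMod r) + t (e s))) ∈ BadSet m S r (vP P r)) else ∅
  let On : (Fin (Fintype.card S) → ℤ) → (∀ i, (E (a i) (b i)).Point) → Prop := fun t P =>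
    ∃ z, OnCover a b m d S (fun s => (q : ℤ) ^ (s.1.1 - 1) * (v s + t (e s))) P z
  have h1 := hN₀ N hN q hq hqN On Bd ?_ ?_ ?_
  · have h2 : Nat.card {u : S → ℤ // (∃ P z, OnCoverQ a b m d S (fun s => (u s : ℚ) / q) P z) ∧
        ∀ s, v s ≤ u s ∧ u s < v s + N} ≤ #{t ∈ Bx (Fintype.card S) N | ∃ P, On t P} := by
      have h3 := Nat.card_le_card_of_injective
        (fun c : {u : S → ℤ // (∃ P z, OnCoverQ a b m d S (fun s => (u s : ℚ) / q) P z) ∧
            ∀ s, v s ≤ u s ∧ u s < v s + N} =>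
          (⟨fun i => c.1 (e.symm i) - v (e.symm i), by
            rw [Finset.mem_filter, mem_Bx]
            refine ⟨fun i => ?_, ?_⟩
            · have := c.2.2 (e.symm i)
              omega
            · obtain ⟨P, z, hz⟩ := c.2.1
              refine ⟨P, (q : ℚ) * z, ?_⟩
              have e1 : (fun s : S => (q : ℤ) ^ (s.1.1 - 1) *
                  (v s + (c.1 (e.symm (e s)) - v (e.symm (e s))))) =
                  fun s : S => (q : ℤ) ^ (s.1.1 - 1) * c.1 s := by
                funext s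
                rw [e.symm_apply_apply]
                ring
              rw [e1]
              exact (onCoverQ_iff hS hq).mp hz⟩ :
                ↥({t ∈ Bx (Fintype.card S) N | ∃ P, On t P})))
        (fun c c' hcc => by
          apply Subtype.ext
          funext s
          have h4 := congrFun (congrArg Subtype.val hcc) (e s)
          simp only [e.symm_apply_apply] at h4
          omega)
      refine h3.trans (le_of_eq ?_)
      rw [Nat.card_eq_fintype_card, Fintype.card_coe]
    have h5 : ((Fintype.card S : ℕ) : ℝ) = (#S : ℝ) := by rw [Fintype.card_coe]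
    rw [h5] at h1
    exact le_trans (by exact_mod_cast h2) h1
  · intro P r hr h3 hnd h4
    have hF : Fact r.Prime := ⟨hr⟩
    have hq0 : (q : ZMod r) ≠ 0 := by
      intro h0
      exact hnd ((ZMod.natCast_eq_zero_iff _ _).mp h0)
    simp only [Bd, dif_pos hr]
    refine le_trans ?_ (card_badSet1 hm hS hSm h' (l := r) h3 h4 (fun i => hrep i (P i)))
    have h6 : #(Finset.univ.filter (fun t : Fin (Fintype.card S) → ZMod r =>
        (fun s : S => (q : ZMod r) ^ (s.1.1 - 1) * (((v s : ℤ) : ZMod r) + t (e s))) ∈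
          BadSet m S r (vP P r))) ≤ #(BadSet m S r (vP P r)) := by
      refine Finset.card_le_card_of_injOn (fun t => fun s : S => (q : ZMod r) ^ (s.1.1 - 1) *
        (((v s : ℤ) : ZMod r) + t (e s))) ?_ ?_
      · intro t ht
        rw [Finset.mem_coe, Finset.mem_filter] at ht
        exact ht.2
      · intro t _ t' _ htt
        funext i
        have := congrFun htt (e.symm i)
        simp only [e.apply_symm_apply] at this
        exact add_left_cancel (mul_left_cancel₀ (pow_ne_zero _ hq0) this)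
    exact_mod_cast h6
  · intro t P r hr h3 hnd h4 hOn
    have hF : Fact r.Prime := ⟨hr⟩
    obtain ⟨z, hz⟩ := hOn
    simp only [Bd, dif_pos hr]
    rw [Finset.mem_filter]
    refine ⟨Finset.mem_univ _, ?_⟩
    rw [mem_BadSet]
    obtain ⟨Z, hZ⟩ := integral_solution1 (by omega) hS hz (fun i => hrep i (P i))
    refine ⟨(Z : ZMod r), ?_⟩
    have := congrArg (Int.cast : ℤ → ZMod r) hZ
    push_cast at this
    rw [← this]
    congr 1
    refine Finset.sum_congr rfl fun s _ => ?_
    simp only [vP, vec, mono]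
    push_cast
    rfl
  · intro P P' r hF h3 hnd h4 hH
    have hr : r.Prime := hF.out
    simp only [Bd, dif_pos hr]
    obtain ⟨u, hu, hv⟩ := vec_cong1 hS (l := r) (fun i => hrep i (P i)) (fun i => hrep i (P' i)) hH
    have := badSet_scale1 hS hu hv
    ext t
    rw [Finset.mem_filter, Finset.mem_filter]
    simp only [Finset.mem_univ, true_and]
    have e2 : BadSet m S r (vP P r) = BadSet m S r (vP P' r) := this
    rw [e2]

end Pool.Agent.Helper14.PI
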